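import Mathlib

set_option autoImplicit false

namespace Pool.Agent.JobEscape

open Relation Set

section

variable {S : Type*} (G : SimpleGraph S) (o : S)

/-- exhaustion by finite sets -/
def B : ℕ → Set S
  | 0 => ∅
  | n + 1 => B n ∪ {o} ∪ ⋃ y ∈ B n, G.neighborSet y

/-- adjacency away from `B i` -/
def R (i : ℕ) (x y : S) : Prop := G.Adj x y ∧ x ∉ B G o i ∧ y ∉ B G o i

/-- `v` lies in an infinite component away from `B i` -/
def Q (i : ℕ) (v : S) : Prop := v ∉ B G o i ∧ {w | ReflTransGen (R G o i) v w}.Infinite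

/-- there is a path of length `n` from `v` to level `i + 1` -/
def D (i : ℕ) : ℕ → S → Prop
  | 0, v => Q G o (i + 1) v
  | n + 1, v => ∃ u, G.Adj v u ∧ Q G o i u ∧ D i n u

variable {G o}

lemma B_succ (i : ℕ) : B G o i ⊆ B G o (i + 1) := by
  intro x hx
  exact Or.inl (Or.inl hx)

lemma B_mono {i j : ℕ} (h : i ≤ j) : B G o i ⊆ B G o j := by
  induction h with
  | refl => exact subset_rfl
  | step _ ih => exact ih.trans (B_succ _)

lemma o_mem {i : ℕ} (hi : i ≠ 0) : o ∈ B G o i := by
  obtain ⟨j, rfl⟩ := Nat.exists_eq_succ_of_ne_zero hi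
  exact Or.inl (Or.inr rfl)

lemma B_finite (hlf : ∀ x, (G.neighborSet x).Finite) (i : ℕ) : (B G o i).Finite := by
  induction i with
  | zero => exact Set.finite_empty
  | succ n ih => exact (ih.union (Set.finite_singleton _)).union (ih.biUnion fun y _ => hlf y)

lemma exists_mem (hG : G.Connected) (x : S) : ∃ i, x ∈ B G o i := by
  have h : ReflTransGen G.Adj o x := by
    rw [← SimpleGraph.reachable_iff_reflTransGen]; exact hG.preconnected o x
  induction h with
  | refl => exact ⟨1, o_mem one_ne_zero⟩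
  | tail _ h2 ih =>
    obtain ⟨i, hi⟩ := ih
    refine ⟨i + 1, Or.inr ?_⟩
    simp only [Set.mem_iUnion]
    exact ⟨_, hi, h2⟩

lemma R_symm {i : ℕ} {x y : S} (h : R G o i x y) : R G o i y x := ⟨h.1.symm, h.2.2, h.2.1⟩

lemma RT_symm {i : ℕ} {x y : S} (h : ReflTransGen (R G o i) x y) :
    ReflTransGen (R G o i) y x := by
  induction h with
  | refl => exact ReflTransGen.refl
  | tail _ h2 ih => exact ReflTransGen.head (R_symm h2) ih

lemma R_anti {i j : ℕ} (hij : i ≤ j) {x y : S} (h : R G o j x y) : R G o i x y :=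
  ⟨h.1, fun hx => h.2.1 (B_mono hij hx), fun hx => h.2.2 (B_mono hij hx)⟩

lemma Q_anti {i j : ℕ} (hij : i ≤ j) {v : S} (h : Q G o j v) : Q G o i v := by
  refine ⟨fun hx => h.1 (B_mono hij hx), h.2.mono ?_⟩
  intro w hw
  exact ReflTransGen.mono (fun a b hab => R_anti hij hab) _ _ hw

lemma Q_zero (hG : G.Connected) (hinf : Infinite S) (v : S) : Q G o 0 v := by
  refine ⟨fun h => h, ?_⟩
  have : {w | ReflTransGen (R G o 0) v w} = Set.univ := by
    ext w
    simp only [Set.mem_univ, iff_true]
    change ReflTransGen (R G o 0) v w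
    have h : ReflTransGen G.Adj v w := by
      rw [← SimpleGraph.reachable_iff_reflTransGen]; exact hG.preconnected v w
    exact ReflTransGen.mono (p := R G o 0) (fun a b hab => ⟨hab, fun h => h, fun h => h⟩) _ _ h
  rw [this]
  exact Set.infinite_univ

lemma Q_step {i : ℕ} {x y : S} (hx : Q G o i x) (h : R G o i x y) : Q G o i y := by
  refine ⟨h.2.2, hx.2.mono ?_⟩
  intro w hw
  exact ReflTransGen.head (R_symm h) hw

lemma Q_not_finite (hG : G.Connected) (hlf : ∀ x, (G.neighborSet x).Finite) (hinf : Infinite S)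
    (i : ℕ) : {v | ¬ Q G o i v}.Finite := by
  rcases Nat.eq_zero_or_pos i with rfl | hi
  · have : {v | ¬ Q G o 0 v} = ∅ := by
      ext v; simp [Q_zero hG hinf v]
    rw [this]; exact Set.finite_empty
  · have key : ∀ x, x ∈ B G o i ∨ (x ∉ B G o i ∧ ∃ y ∈ B G o i, ∃ u, G.Adj y u ∧ u ∉ B G o i ∧
        ReflTransGen (R G o i) u x) := by
      intro x
      have h : ReflTransGen G.Adj o x := by
        rw [← SimpleGraph.reachable_iff_reflTransGen]; exact hG.preconnected o x
      induction h with
      | refl => exact Or.inl (o_mem hi.ne')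
      | @tail b c _ h2 ih =>
        by_cases hc : c ∈ B G o i
        · exact Or.inl hc
        · refine Or.inr ⟨hc, ?_⟩
          rcases ih with hb | ⟨hb, y, hy, u, hyu, hu, hub⟩
          · exact ⟨b, hb, c, h2, hc, ReflTransGen.refl⟩
          · exact ⟨y, hy, u, hyu, hu, hub.tail ⟨h2, hb, hc⟩⟩
    have hfin : (B G o i ∪ ⋃ u ∈ {u | u ∈ ⋃ y ∈ B G o i, G.neighborSet y ∧
        {w | ReflTransGen (R G o i) u w}.Finite}, {w | ReflTransGen (R G o i) u w}).Finite := by
      refine (B_finite hlf i).union (Set.Finite.biUnion ?_ ?_)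
      · exact Set.Finite.subset ((B_finite (o := o) hlf i).biUnion fun y _ => hlf y)
          fun u hu => hu.1
      · intro u hu
        exact hu.2
    refine hfin.subset ?_
    intro v hv
    by_cases hvB : v ∈ B G o i
    · exact Or.inl hvB
    · refine Or.inr ?_
      rcases key v with h | ⟨_, y, hy, u, hyu, hu, huv⟩
      · exact absurd h hvB
      · have hfv : {w | ReflTransGen (R G o i) v w}.Finite := by
          by_contra hcon
          exact hv ⟨hvB, hcon⟩
        simp only [Set.mem_iUnion]
        refine ⟨u, ⟨?_, ?_⟩, huv⟩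
        · exact ⟨y, hy, hyu⟩
        · refine hfv.subset ?_
          intro w hw
          exact (RT_symm huv).trans hw

lemma exists_D (hG : G.Connected) (hlf : ∀ x, (G.neighborSet x).Finite) (hinf : Infinite S)
    {i : ℕ} {v : S} (hv : Q G o i v) : ∃ n, D G o i n v := by
  obtain ⟨w, hw1, hw2⟩ : ∃ w, ReflTransGen (R G o i) v w ∧ Q G o (i + 1) w := by
    by_contra hcon
    push Not at hcon
    exact hv.2 ((Q_not_finite (o := o) hG hlf hinf (i + 1)).subset fun w hw => hcon w hw)
  induction hw1 using ReflTransGen.head_induction_on with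
  | refl => exact ⟨0, hw2⟩
  | head h1 _ ih =>
    obtain ⟨n, hn⟩ := ih (Q_step hv h1)
    exact ⟨n + 1, _, h1.1, Q_step hv h1, hn⟩

end

/-- Every infinite connected locally finite graph has a function `φ` to neighbours along which
a natural number valued rank strictly increases. -/
theorem exists_escape {S : Type*} (G : SimpleGraph S) (hG : G.Connected)
    (hlf : ∀ x, (G.neighborSet x).Finite) (hinf : Infinite S) :
    ∃ (φ : S → S) (ρ : S → ℕ), ∀ x, G.Adj x (φ x) ∧ ρ x < ρ (φ x) := by
  classical
  obtain ⟨o⟩ : Nonempty S := inferInstance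
  have hlev : ∀ v : S, ∃ i, ¬ Q G o (i + 1) v := by
    intro v
    obtain ⟨i, hi⟩ := exists_mem (G := G) (o := o) hG v
    exact ⟨i, fun h => h.1 (B_succ i hi)⟩
  let lev : S → ℕ := fun v => Nat.find (hlev v)
  have hlev1 : ∀ v, ¬ Q G o (lev v + 1) v := fun v => Nat.find_spec (hlev v)
  have hlevQ : ∀ v, Q G o (lev v) v := by
    intro v
    rcases Nat.eq_zero_or_pos (lev v) with h | h
    · rw [h]; exact Q_zero hG hinf v
    · obtain ⟨j, hj⟩ := Nat.exists_eq_succ_of_ne_zero h.ne'
      rw [hj]
      by_contra hcon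
      have := Nat.find_min' (hlev v) hcon
      change lev v ≤ j at this
      omega
  have hlevle : ∀ v j, Q G o j v → j ≤ lev v := by
    intro v j hj
    by_contra hcon
    push Not at hcon
    exact hlev1 v (Q_anti hcon hj)
  have hfin : ∀ i, {w | lev w ≤ i}.Finite := by
    intro i
    refine (Q_not_finite (o := o) hG hlf hinf (i + 1)).subset ?_
    intro w hw hQ
    have := hlevle w _ hQ
    have h2 : lev w ≤ i := hw
    omega
  have he : ∀ v, ∃ n, D G o (lev v) n v := fun v => exists_D hG hlf hinf (hlevQ v)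
  let e : S → ℕ := fun v => Nat.find (he v)
  have hnext : ∀ v, ∃ u, G.Adj v u ∧ (lev v < lev u ∨ (lev u = lev v ∧ e u < e v)) := by
    intro v
    have h1 : D G o (lev v) (e v) v := Nat.find_spec (he v)
    rcases hn : e v with _ | m
    · rw [hn] at h1
      exact absurd h1 (hlev1 v)
    · rw [hn] at h1
      obtain ⟨u, hu1, hu2, hu3⟩ := h1
      refine ⟨u, hu1, ?_⟩
      rcases Nat.lt_or_ge (lev v) (lev u) with h | h
      · exact Or.inl h
      · right
        have h2 : lev u = lev v := le_antisymm h (hlevle u _ hu2)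
        refine ⟨h2, ?_⟩
        have : e u ≤ m := by
          apply Nat.find_min'
          rw [h2]; exact hu3
        omega
  choose φ hφ1 hφ2 using hnext
  let T : S → Set S := fun v => {w | lev w < lev v ∨ (lev w = lev v ∧ e v < e w)}
  have hT : ∀ v, (T v).Finite := by
    intro v
    refine (hfin (lev v)).subset ?_
    intro w hw
    rcases hw with h | h
    · exact h.le
    · exact h.1.le
  refine ⟨φ, fun v => (T v).ncard, fun v => ⟨hφ1 v, ?_⟩⟩
  refine Set.ncard_lt_ncard ?_ (hT _)
  refine ⟨?_, ?_⟩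
  · intro w hw
    rcases hφ2 v with h | h
    · rcases hw with h' | h'
      · exact Or.inl (h'.trans h)
      · left; rw [h'.1]; exact h
    · rcases hw with h' | h'
      · left; rw [h.1]; exact h'
      · right; exact ⟨h'.1.trans h.1.symm, h.2.trans h'.2⟩
  · intro hsub
    have hv : v ∈ T (φ v) := by
      rcases hφ2 v with h | h
      · exact Or.inl h
      · exact Or.inr ⟨h.1.symm, h.2⟩
    rcases hsub hv with h | h
    · exact lt_irrefl _ h
    · exact lt_irrefl _ h.2

end Pool.Agent.JobEscape
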