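import Pool.Agent.TH313.SC.Defs
import Pool.Agent.TH73.HI_HB

/-!
# SC7: limits of Davie's approximate traces of operators on sections are continuous
-/

set_option autoImplicit false

namespace Pool.Agent.TH158.SC7

open Finset Filter Topology Pool.Agent.TH313.HI Pool.Agent.TH313.SC

noncomputable section

variable {Ω M : Type} [TopologicalSpace Ω] [MetricSpace M] (F : C(Ω, M)) (N : Net M)

/-- the functional with coefficients `c` on the level `k` of the fibre at `m` -/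
def fuD (m : M) (c : ℕ → ℝ) (k : ℕ) : WT →L[ℂ] ℂ :=
  (1 / 2 ^ (k + 2) : ℂ) • ∑ g ∈ range (2 ^ (k + 2)), ((c g : ℝ) : ℂ) • coordL (lv N k) (ixx k g (dd N m k))

theorem fuD_apply (m : M) (c : ℕ → ℝ) (k : ℕ) (w : WT) : fuD N m c k w = (1 / 2 ^ (k + 2) : ℂ) *
    ∑ g ∈ range (2 ^ (k + 2)), ((c g : ℝ) : ℂ) * cw w (lv N k) (ixx k g (dd N m k)) := by
  unfold fuD
  rw [smul_apply, _root_.sum_apply, smul_eq_mul]
  congr 1

theorem fuD_EE (m : M) (c : ℕ → ℝ) (k l j : ℕ) : fuD N m c k (EE N m l j) = (1 / 2 ^ (k + 2) : ℂ) *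
    ∑ g ∈ range (2 ^ (k + 2)), ((c g : ℝ) : ℂ) * gf l j k g := by
  rw [fuD_apply]
  congr 1
  refine Finset.sum_congr rfl fun g hg => ?_
  rw [EE_coord N m l j k _ (Finset.mem_range.1 hg), pr_dd, Complex.ofReal_one, mul_one]

theorem sg_EE (x : M) (k j m i : ℕ) (hj : j < 2 ^ k) (hi : i < 2 ^ m) :
    fuD N x (sys.sg k j) k (EE N x m i) = if m = k ∧ i = j then 1 else 0 := by
  rw [fuD_EE]
  exact sys.al_E (𝕜 := ℂ) k j m i hj hi

theorem tt_EE (x : M) (k j m i : ℕ) (hj : j < 2 ^ (k + 1)) (hi : i < 2 ^ m) :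
    fuD N x (sys.tt k j) k (EE N x m i) = if m = k + 1 ∧ i = j then 1 else 0 := by
  rw [fuD_EE]
  exact sys.al'_E (𝕜 := ℂ) k j m i hj hi

theorem alv_eq_fuD (x : M) (k j : ℕ) (w : WT) : alv N x k j w = fuD N x (sys.sg k j) k w := by
  rw [alv_apply, fuD_apply]

/-- the two forms of the biorthogonal functionals agree on sections -/
theorem alv_succ (t : Ω) (k j : ℕ) (hj : j < 2 ^ (k + 1)) (y : YT F N) :
    alv N (F t) (k + 1) j (evY F N t y) = fuD N (F t) (sys.tt k j) k (evY F N t y) := by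
  have h := YT.kills F N t ((fuD N (F t) (sys.sg (k + 1) j) (k + 1) -
    fuD N (F t) (sys.tt k j) k).restrictScalars ℝ) (fun m i hi => by
      show (fuD N (F t) (sys.sg (k + 1) j) (k + 1) - fuD N (F t) (sys.tt k j) k) (EE N (F t) m i) = 0
      rw [sub_apply, sg_EE _ _ _ _ _ _ hj hi, tt_EE _ _ _ _ _ _ hj hi, sub_self]) y
  rw [alv_eq_fuD]
  exact sub_eq_zero.1 h

/-- the sections of the compact set -/
def PhiY (f : Ω → ℝ) (hf : C0 f) (k g : ℕ) : YT F N :=
  (1 / 2 ^ (k + 1) : ℝ) • (∑ j ∈ range (2 ^ (k + 1)), (sys.tt k j g) • gY F N f hf (k + 1) j) -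
    (1 / 2 ^ k : ℝ) • (∑ j ∈ range (2 ^ k), (sys.sg k j g) • gY F N f hf k j)

theorem map_PhiY (f : Ω → ℝ) (hf : C0 f) (k g : ℕ) (L : YT F N →L[ℝ] ℂ) : L (PhiY F N f hf k g) =
    (1 / 2 ^ (k + 1) : ℂ) * (∑ j ∈ range (2 ^ (k + 1)), ((sys.tt k j g : ℝ) : ℂ) * L (gY F N f hf (k + 1) j)) -
    (1 / 2 ^ k : ℂ) * (∑ j ∈ range (2 ^ k), ((sys.sg k j g : ℝ) : ℂ) * L (gY F N f hf k j)) := by
  unfold PhiY
  rw [_root_.map_sub, _root_.map_smul, _root_.map_smul, _root_.map_sum, _root_.map_sum]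
  simp only [_root_.map_smul, Complex.real_smul]
  push_cast
  rfl

/-- the coordinates at a point as functionals on sections -/
def cY (t : Ω) (K G : ℕ) : YT F N →L[ℝ] ℂ := ((coordL K G).restrictScalars ℝ).comp (evY F N t)

theorem cY_apply (t : Ω) (K G : ℕ) (y : YT F N) : cY F N t K G y = cw (evY F N t y) K G := rfl

theorem cY_gY (t : Ω) (K G : ℕ) (f : Ω → ℝ) (hf : C0 f) {k j : ℕ} (hj : j < 2 ^ k) :
    cY F N t K G (gY F N f hf k j) = ((f t : ℝ) : ℂ) * th N (F t) (gf k j) K G := by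
  unfold cY
  rw [ContinuousLinearMap.comp_apply, ev_gY F N hf hj, _root_.map_smul, Complex.real_smul]
  congr 1
  show cw (EE N (F t) k j) K G = _
  rw [cw_EE]

/-- the coordinates of the sections of the compact set -/
theorem cw_PhiY (t : Ω) (f : Ω → ℝ) (hf : C0 f) (k g : ℕ) :
    cw (evY F N t (PhiY F N f hf k g)) = ((f t : ℝ) : ℂ) • th N (F t) (cz (Pool.Agent.TH73.HB.PhiZ k g)) := by
  funext K G
  have h1 := map_PhiY F N f hf k g (cY F N t K G)
  rw [cY_apply] at h1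
  rw [h1]
  have h2 : ∀ L : V →ₗ[ℂ] ℂ, L (cz (Pool.Agent.TH73.HB.PhiZ k g)) =
      (1 / 2 ^ (k + 1) : ℂ) * (∑ j ∈ range (2 ^ (k + 1)), ((sys.tt k j g : ℝ) : ℂ) * L (gf (k + 1) j)) -
      (1 / 2 ^ k : ℂ) * (∑ j ∈ range (2 ^ k), ((sys.sg k j g : ℝ) : ℂ) * L (gf k j)) := by
    intro L
    unfold Pool.Agent.TH73.HB.PhiZ
    rw [_root_.map_sub, _root_.map_smul, _root_.map_smul, _root_.map_sum, _root_.map_sum,
      _root_.map_sub, _root_.map_smul, _root_.map_smul, _root_.map_sum, _root_.map_sum]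
    simp only [_root_.map_smul, smul_eq_mul]
    congr 2
    · refine Finset.sum_congr rfl fun j hj => ?_
      rw [cz_gz (Finset.mem_range.1 hj)]
    · refine Finset.sum_congr rfl fun j hj => ?_
      rw [cz_gz (Finset.mem_range.1 hj)]
  have h3 := h2 ((LinearMap.proj G).comp ((LinearMap.proj K).comp (th N (F t))))
  have h4 : ((LinearMap.proj G).comp ((LinearMap.proj K).comp (th N (F t)))) (cz (Pool.Agent.TH73.HB.PhiZ k g)) =
    th N (F t) (cz (Pool.Agent.TH73.HB.PhiZ k g)) K G := rfl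
  rw [h4] at h3
  show _ = ((f t : ℝ) : ℂ) * th N (F t) (cz (Pool.Agent.TH73.HB.PhiZ k g)) K G
  rw [h3, mul_sub]
  congr 1
  · rw [mul_left_comm, Finset.mul_sum _ _ ((f t : ℝ) : ℂ)]
    congr 1
    refine Finset.sum_congr rfl fun j hj => ?_
    rw [cY_gY F N t K G f hf (Finset.mem_range.1 hj), mul_left_comm]
    rfl
  · rw [mul_left_comm, Finset.mul_sum _ _ ((f t : ℝ) : ℂ)]
    congr 1
    refine Finset.sum_congr rfl fun j hj => ?_
    rw [cY_gY F N t K G f hf (Finset.mem_range.1 hj), mul_left_comm]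
    rfl

open Pool.Agent.H812R2.AP in
theorem norm_PhiY_le (f : Ω → ℝ) (hf : C0 f) {c : ℝ} (hc0 : 0 ≤ c) (hc : ∀ t, |f t| ≤ c) (k g : ℕ)
    (hg : g < 2 ^ (k + 2)) : ‖PhiY F N f hf k g‖ ≤ c * (3 * Sys.cc k) := by
  have hcc : 0 ≤ Sys.cc k := Pool.Agent.TH73.HB.cc_nonneg k
  have h0 : 0 ≤ c * (3 * Sys.cc k) := mul_nonneg hc0 (mul_nonneg (by norm_num) hcc)
  refine YT.norm_le h0 fun t => WT.norm_le h0 ?_
  rw [cw_PhiY]
  have h1 : Bd (3 * Sys.cc k) (th N (F t) (cz (Pool.Agent.TH73.HB.PhiZ k g))) := by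
    refine (th_bd N (F t) (Pool.Agent.TH73.HB.PhiZ_lv k g)
      (fun l h => Pool.Agent.TH73.HB.cz_PhiZ_bound k g hg l h)).mono ?_
    refine mul_le_mul_of_nonneg_right ?_ hcc
    have : k + 1 + 1 - (k - 1) ≤ 3 := by omega
    exact_mod_cast this
  refine (h1.smul ((f t : ℝ) : ℂ)).mono ?_
  rw [Complex.norm_real, Real.norm_eq_abs]
  exact mul_le_mul_of_nonneg_right (hc t) (mul_nonneg (by norm_num) hcc)

/-- consecutive approximate traces -/
theorem bt_succ (T : YT F N →L[ℝ] YT F N) (f : Ω → ℝ) (hf : C0 f) (k : ℕ) (t : Ω) :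
    bt N F T f hf (k + 1) t - bt N F T f hf k t = (1 / 2 ^ (k + 2) : ℂ) *
      ∑ g ∈ range (2 ^ (k + 2)), cw (evY F N t (T (PhiY F N f hf k g))) (lv N k) (ixx k g (dd N (F t) k)) := by
  have h1 : ∀ g, cw (evY F N t (T (PhiY F N f hf k g))) (lv N k) (ixx k g (dd N (F t) k)) =
      (1 / 2 ^ (k + 1) : ℂ) * (∑ j ∈ range (2 ^ (k + 1)), ((sys.tt k j g : ℝ) : ℂ) *
        cw (evY F N t (T (gY F N f hf (k + 1) j))) (lv N k) (ixx k g (dd N (F t) k))) -
      (1 / 2 ^ k : ℂ) * (∑ j ∈ range (2 ^ k), ((sys.sg k j g : ℝ) : ℂ) *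
        cw (evY F N t (T (gY F N f hf k j))) (lv N k) (ixx k g (dd N (F t) k))) := by
    intro g
    exact map_PhiY F N f hf k g ((cY F N t (lv N k) (ixx k g (dd N (F t) k))).comp T)
  have h2 : bt N F T f hf (k + 1) t = (1 / 2 ^ (k + 1) : ℂ) * ∑ j ∈ range (2 ^ (k + 1)),
      ((1 / 2 ^ (k + 2) : ℂ) * ∑ g ∈ range (2 ^ (k + 2)), ((sys.tt k j g : ℝ) : ℂ) *
        cw (evY F N t (T (gY F N f hf (k + 1) j))) (lv N k) (ixx k g (dd N (F t) k))) := by
    unfold bt
    congr 1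
    refine Finset.sum_congr rfl fun j hj => ?_
    rw [alv_succ F N t k j (Finset.mem_range.1 hj), fuD_apply]
  have h3 : bt N F T f hf k t = (1 / 2 ^ k : ℂ) * ∑ j ∈ range (2 ^ k),
      ((1 / 2 ^ (k + 2) : ℂ) * ∑ g ∈ range (2 ^ (k + 2)), ((sys.sg k j g : ℝ) : ℂ) *
        cw (evY F N t (T (gY F N f hf k j))) (lv N k) (ixx k g (dd N (F t) k))) := by
    unfold bt
    congr 1
    refine Finset.sum_congr rfl fun j hj => ?_
    rw [alv_apply]
  rw [h2, h3]
  simp only [h1]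
  rw [Finset.sum_sub_distrib, mul_sub]
  congr 1
  · rw [← Finset.mul_sum, ← Finset.mul_sum, mul_left_comm]
    congr 2
    rw [Finset.sum_comm]
  · rw [← Finset.mul_sum, ← Finset.mul_sum, mul_left_comm]
    congr 2
    rw [Finset.sum_comm]

open Pool.Agent.H812R2.AP in
theorem norm_bt_succ (T : YT F N →L[ℝ] YT F N) (f : Ω → ℝ) (hf : C0 f) {c : ℝ} (hc0 : 0 ≤ c)
    (hc : ∀ t, |f t| ≤ c) (k : ℕ) (t : Ω) :
    ‖bt N F T f hf (k + 1) t - bt N F T f hf k t‖ ≤ ‖T‖ * (c * (3 * Sys.cc k)) := by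
  rw [bt_succ, norm_mul]
  have h1 : ‖(1 / 2 ^ (k + 2) : ℂ)‖ = 1 / 2 ^ (k + 2) := by simp
  rw [h1]
  have h2 : ‖∑ g ∈ range (2 ^ (k + 2)), cw (evY F N t (T (PhiY F N f hf k g))) (lv N k)
      (ixx k g (dd N (F t) k))‖ ≤ 2 ^ (k + 2) * (‖T‖ * (c * (3 * Sys.cc k))) := by
    refine (norm_sum_le _ _).trans ?_
    have h3 : (∑ g ∈ range (2 ^ (k + 2)), ‖cw (evY F N t (T (PhiY F N f hf k g))) (lv N k)
        (ixx k g (dd N (F t) k))‖) ≤ ∑ g ∈ range (2 ^ (k + 2)), ‖T‖ * (c * (3 * Sys.cc k)) := by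
      refine Finset.sum_le_sum fun g hg => ?_
      calc ‖cw (evY F N t (T (PhiY F N f hf k g))) (lv N k) (ixx k g (dd N (F t) k))‖
          ≤ ‖evY F N t (T (PhiY F N f hf k g))‖ := norm_cw_le _ _ _
        _ ≤ ‖T (PhiY F N f hf k g)‖ := norm_evY_le _ _
        _ ≤ ‖T‖ * ‖PhiY F N f hf k g‖ := T.le_opNorm _
        _ ≤ ‖T‖ * (c * (3 * Sys.cc k)) :=
            mul_le_mul_of_nonneg_left (norm_PhiY_le F N f hf hc0 hc k g (Finset.mem_range.1 hg)) (norm_nonneg _)
    refine h3.trans (le_of_eq ?_)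
    rw [Finset.sum_const, Finset.card_range, nsmul_eq_mul]
    push_cast
    ring
  calc (1 / 2 ^ (k + 2) : ℝ) * ‖∑ g ∈ range (2 ^ (k + 2)), cw (evY F N t (T (PhiY F N f hf k g))) (lv N k)
          (ixx k g (dd N (F t) k))‖
      ≤ (1 / 2 ^ (k + 2)) * (2 ^ (k + 2) * (‖T‖ * (c * (3 * Sys.cc k)))) := by gcongr
    _ = ‖T‖ * (c * (3 * Sys.cc k)) := by field_simp

theorem continuous_pr (k d : ℕ) : Continuous fun m : M => pr N m k d := by
  unfold pr
  split_ifs
  · fun_prop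
  · exact continuous_const

/-- the coordinates of a section in terms of the value near the peak -/
theorem coord_pr (t : Ω) (y : YT F N) (k d : ℕ) {g : ℕ} (hg : g < 2 ^ (k + 2)) :
    cw (evY F N t y) (lv N k) (ixx k g d) =
      ((pr N (F t) k d : ℝ) : ℂ) * cw (evY F N t y) (lv N k) (ixx k g (dd N (F t) k)) := by
  have h := YT.kills F N t ((coordL (lv N k) (ixx k g d) -
    ((pr N (F t) k d : ℝ) : ℂ) • coordL (lv N k) (ixx k g (dd N (F t) k))).restrictScalars ℝ)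
    (fun m i hi => by
      show cw (EE N (F t) m i) (lv N k) (ixx k g d) -
        ((pr N (F t) k d : ℝ) : ℂ) * cw (EE N (F t) m i) (lv N k) (ixx k g (dd N (F t) k)) = 0
      rw [EE_coord N _ m i k _ hg, EE_coord N _ m i k _ hg, pr_dd]
      push_cast
      ring) y
  exact sub_eq_zero.1 h

theorem continuous_coord (y : YT F N) (K G : ℕ) : Continuous fun t => cw (evY F N t y) K G :=
  (coordL K G).continuous.comp (continuous_ev_YT y)

/-- the value near the peak is continuous -/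
theorem continuous_peak (y : YT F N) (k : ℕ) {g : ℕ} (hg : g < 2 ^ (k + 2)) :
    Continuous fun t => cw (evY F N t y) (lv N k) (ixx k g (dd N (F t) k)) := by
  have hD : ∀ t, (1 : ℝ) ≤ ∑ d ∈ range (2 ^ N.r k), pr N (F t) k d * pr N (F t) k d := by
    intro t
    have h1 : pr N (F t) k (dd N (F t) k) * pr N (F t) k (dd N (F t) k) ≤
        ∑ d ∈ range (2 ^ N.r k), pr N (F t) k d * pr N (F t) k d :=
      Finset.single_le_sum (f := fun d => pr N (F t) k d * pr N (F t) k d)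
        (fun d _ => mul_self_nonneg _) (Finset.mem_range.2 (dd_lt N (F t) k))
    rw [pr_dd, mul_one] at h1
    exact h1
  have h2 : (fun t => cw (evY F N t y) (lv N k) (ixx k g (dd N (F t) k))) = fun t =>
      (∑ d ∈ range (2 ^ N.r k), ((pr N (F t) k d : ℝ) : ℂ) * cw (evY F N t y) (lv N k) (ixx k g d)) /
        ((∑ d ∈ range (2 ^ N.r k), pr N (F t) k d * pr N (F t) k d : ℝ) : ℂ) := by
    funext t
    have h3 : ((∑ d ∈ range (2 ^ N.r k), pr N (F t) k d * pr N (F t) k d : ℝ) : ℂ) ≠ 0 := by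
      rw [Complex.ofReal_ne_zero]
      have := hD t
      intro h
      rw [h] at this
      norm_num at this
    rw [eq_div_iff h3]
    push_cast
    rw [mul_comm, Finset.sum_mul]
    refine Finset.sum_congr rfl fun d _ => ?_
    rw [coord_pr F N t y k d hg]
    ring
  rw [h2]
  refine Continuous.div ?_ ?_ ?_
  · refine continuous_finsetSum _ fun d _ => ?_
    exact (Complex.continuous_ofReal.comp ((continuous_pr N k d).comp F.continuous)).mul
      (continuous_coord F N y _ _)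
  · refine Complex.continuous_ofReal.comp ?_
    refine continuous_finsetSum _ fun d _ => ?_
    exact ((continuous_pr N k d).comp F.continuous).mul ((continuous_pr N k d).comp F.continuous)
  · intro t
    rw [Complex.ofReal_ne_zero]
    have := hD t
    intro h
    rw [h] at this
    norm_num at this

theorem continuous_bt (T : YT F N →L[ℝ] YT F N) (f : Ω → ℝ) (hf : C0 f) (k : ℕ) :
    Continuous fun t => bt N F T f hf k t := by
  unfold bt
  refine continuous_const.mul (continuous_finsetSum _ fun j _ => ?_)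
  simp only [alv_apply]
  refine continuous_const.mul (continuous_finsetSum _ fun g hg => ?_)
  exact continuous_const.mul (continuous_peak F N _ k (Finset.mem_range.1 hg))

end

open Pool.Agent.H812R2.AP in
/-- SC7: the limits of the approximate traces are continuous -/
theorem trace_cont {Ω M : Type} [TopologicalSpace Ω] [MetricSpace M] (F : C(Ω, M)) (N : Net M)
    (T : YT F N →L[ℝ] YT F N) (f : Ω → ℝ) (hf : C0 f) (B : Ω → ℂ)
    (hB : ∀ t, Tendsto (fun k => bt N F T f hf k t) atTop (𝓝 (B t))) : Continuous B := by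
  obtain ⟨c, hc0, hc⟩ := hf.bdd
  have hs : Summable fun n => ‖T‖ * (c * (3 * Sys.cc n)) :=
    ((Pool.Agent.TH73.HB.summable_cc.mul_left 3).mul_left c).mul_left ‖T‖
  have h1 : ∀ k t, dist (bt N F T f hf k t) (B t) ≤ ∑' i, ‖T‖ * (c * (3 * Sys.cc (k + i))) := by
    intro k t
    exact dist_le_tsum_of_dist_le_of_tendsto (f := fun k => bt N F T f hf k t)
      (fun n => ‖T‖ * (c * (3 * Sys.cc n))) (fun n => by
        rw [dist_comm, dist_eq_norm]
        exact norm_bt_succ F N T f hf hc0.le hc n t) hs (hB t) k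
  have h2 : Tendsto (fun k => ∑' i, ‖T‖ * (c * (3 * Sys.cc (k + i)))) atTop (𝓝 0) := by
    have h3 := tendsto_sum_nat_add (fun k => ‖T‖ * (c * (3 * Sys.cc k)))
    refine h3.congr fun k => ?_
    simp only [add_comm k]
  have h3 : TendstoUniformly (fun k t => bt N F T f hf k t) B atTop := by
    rw [Metric.tendstoUniformly_iff]
    intro ε hε
    filter_upwards [h2.eventually (gt_mem_nhds hε)] with k hk t
    rw [dist_comm]
    exact (h1 k t).trans_lt hk
  exact h3.continuous (Filter.Frequently.of_forall fun k => continuous_bt F N T f hf k)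

end Pool.Agent.TH158.SC7
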