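import Mathlib

set_option autoImplicit false

namespace Pool.Agent.JobModel

open Finset

/-- The piecewise linear function `g(b,t) = b + ∑_{k < ⌈m t⌉} min b (max (t - k/m) 0)`. -/
noncomputable def g (m : ℕ) (b t : ℝ) : ℝ :=
  b + ∑ k ∈ Finset.range ⌈(m : ℝ) * t⌉₊, min b (max (t - k / m) 0)

/-- the truncation at `N` terms agrees with `g` as soon as `N ≥ m t` -/
theorem g_eq (m : ℕ) (hm : 0 < m) {b t : ℝ} (hb : 0 ≤ b) {N : ℕ} (hN : (m : ℝ) * t ≤ N) :
    g m b t = b + ∑ k ∈ Finset.range N, min b (max (t - k / m) 0) := by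
  have hm' : (0 : ℝ) < m := by exact_mod_cast hm
  unfold g
  congr 1
  refine Finset.sum_subset ?_ ?_
  · intro k hk
    rw [Finset.mem_range] at hk ⊢
    exact lt_of_lt_of_le hk (Nat.ceil_le.mpr hN)
  · intro k _ hk
    rw [Finset.mem_range, not_lt] at hk
    have h1 : (m : ℝ) * t ≤ k := (Nat.ceil_le.mp hk)
    have h2 : t - k / m ≤ 0 := by
      rw [sub_nonpos, le_div_iff₀ hm']; linarith
    rw [max_eq_right h2, min_eq_right hb]

theorem g_zero_left (m : ℕ) (t : ℝ) : g m 0 t = 0 := by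
  unfold g
  rw [zero_add]
  refine Finset.sum_eq_zero fun k _ => ?_
  exact min_eq_left (le_max_right _ _)

theorem g_zero_right (m : ℕ) (b : ℝ) : g m b 0 = b := by
  unfold g
  simp

theorem term_nonneg {b : ℝ} (hb : 0 ≤ b) (s : ℝ) : 0 ≤ min b (max s 0) :=
  le_min hb (le_max_right _ _)

theorem le_g (m : ℕ) {b t : ℝ} (hb : 0 ≤ b) : b ≤ g m b t := by
  unfold g
  have : 0 ≤ ∑ k ∈ Finset.range ⌈(m : ℝ) * t⌉₊, min b (max (t - k / m) 0) :=
    Finset.sum_nonneg fun k _ => term_nonneg hb _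
  linarith

theorem sub_le_g_sub (m : ℕ) {b b' : ℝ} (h : b ≤ b') (t : ℝ) : b' - b ≤ g m b' t - g m b t := by
  unfold g
  have : ∑ k ∈ Finset.range ⌈(m : ℝ) * t⌉₊, min b (max (t - k / m) 0) ≤
      ∑ k ∈ Finset.range ⌈(m : ℝ) * t⌉₊, min b' (max (t - k / m) 0) :=
    Finset.sum_le_sum fun k _ => min_le_min_right _ h
  linarith

theorem term_mono (b c : ℝ) {t t' : ℝ} (h : t ≤ t') :
    min b (max (t - c) 0) ≤ min b (max (t' - c) 0) :=
  min_le_min_left _ (max_le_max_right _ (by linarith))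

theorem term_lip (b c : ℝ) {t t' : ℝ} (h : t ≤ t') :
    min b (max (t' - c) 0) - min b (max (t - c) 0) ≤ t' - t := by
  rcases le_total b (max (t - c) 0) with h1 | h1
  · rw [min_eq_left h1]
    have := min_le_left b (max (t' - c) 0)
    linarith
  · rw [min_eq_right h1]
    have h2 := min_le_right b (max (t' - c) 0)
    rcases le_total (t' - c) 0 with h3 | h3
    · rw [max_eq_right h3] at h2 ⊢
      have := le_max_right (t - c) 0
      linarith
    · rw [max_eq_left h3] at h2 ⊢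
      have := le_max_left (t - c) 0
      linarith

theorem g_mono_right (m : ℕ) (hm : 0 < m) {b : ℝ} (hb : 0 ≤ b) {t t' : ℝ} (h : t ≤ t') :
    g m b t ≤ g m b t' := by
  have hm' : (0 : ℝ) < m := by exact_mod_cast hm
  have h2 : (m : ℝ) * t' ≤ ⌈(m : ℝ) * t'⌉₊ := Nat.le_ceil _
  have h1 : (m : ℝ) * t ≤ ⌈(m : ℝ) * t'⌉₊ := (mul_le_mul_of_nonneg_left h hm'.le).trans h2
  rw [g_eq m hm hb h1, g_eq m hm hb h2]
  have := Finset.sum_le_sum (s := Finset.range ⌈(m : ℝ) * t'⌉₊)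
    (fun k _ => term_mono b ((k : ℝ) / m) h)
  linarith

theorem g_lip (m : ℕ) (hm : 0 < m) {b : ℝ} (hb : 0 ≤ b) {t t' : ℝ} (h : t ≤ t') {N : ℕ}
    (hN : (m : ℝ) * t' ≤ N) : g m b t' - g m b t ≤ N * (t' - t) := by
  have hm' : (0 : ℝ) < m := by exact_mod_cast hm
  have h1 : (m : ℝ) * t ≤ N := (mul_le_mul_of_nonneg_left h hm'.le).trans hN
  rw [g_eq m hm hb h1, g_eq m hm hb hN]
  have := Finset.sum_le_sum (s := Finset.range N)
    (fun k _ => term_lip b ((k : ℝ) / m) h)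
  rw [Finset.sum_sub_distrib, Finset.sum_const, Finset.card_range, nsmul_eq_mul] at this
  linarith

theorem g_strict_right (m : ℕ) (hm : 0 < m) {b : ℝ} (hb : 1 / (m : ℝ) ≤ b) {t t' : ℝ}
    (ht : 0 ≤ t) (h : t < t') : g m b t < g m b t' := by
  have hm' : (0 : ℝ) < m := by exact_mod_cast hm
  have hb0 : 0 < b := lt_of_lt_of_le (by positivity) hb
  set N := ⌈(m : ℝ) * t'⌉₊ + 1 with hN
  have h2 : (m : ℝ) * t' ≤ N := (Nat.le_ceil _).trans (by rw [hN]; push_cast; linarith)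
  have hlt : (m : ℝ) * t < m * t' := mul_lt_mul_of_pos_left h hm'
  have h1 : (m : ℝ) * t ≤ N := hlt.le.trans h2
  rw [g_eq m hm hb0.le h1, g_eq m hm hb0.le h2]
  have hj1 : ((⌊(m : ℝ) * t⌋₊ : ℕ) : ℝ) ≤ m * t := Nat.floor_le (by positivity)
  have hj2 : (m : ℝ) * t < (⌊(m : ℝ) * t⌋₊ : ℕ) + 1 := Nat.lt_floor_add_one _
  have hjN : ⌊(m : ℝ) * t⌋₊ ∈ Finset.range N := by
    rw [Finset.mem_range]
    have : ((⌊(m : ℝ) * t⌋₊ : ℕ) : ℝ) < N := by
      calc ((⌊(m : ℝ) * t⌋₊ : ℕ) : ℝ) ≤ m * t := hj1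
        _ < m * t' := hlt
        _ ≤ N := h2
    exact_mod_cast this
  have := Finset.sum_lt_sum (s := Finset.range N)
    (fun k _ => term_mono b ((k : ℝ) / m) h.le) ⟨_, hjN, ?_⟩
  · linarith
  · set j := ⌊(m : ℝ) * t⌋₊
    have e1 : 0 ≤ t - (j : ℝ) / m := by
      rw [sub_nonneg, div_le_iff₀ hm']; linarith
    have e2 : t - (j : ℝ) / m < 1 / m := by
      rw [sub_lt_iff_lt_add, ← add_div, lt_div_iff₀ hm']; linarith
    rw [max_eq_left e1, min_eq_right (e2.le.trans hb), max_eq_left (by linarith : (0:ℝ) ≤ t' - j / m)]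
    refine lt_min (lt_of_lt_of_le e2 hb) (by linarith)

theorem g_lower (m : ℕ) {b t M : ℝ} (hb : 0 ≤ b) (hbM : b ≤ M) (hm : 0 < m) :
    b * (m * (t - M)) ≤ g m b t := by
  have hm' : (0 : ℝ) < m := by exact_mod_cast hm
  have hM : 0 ≤ M := hb.trans hbM
  rcases le_total t M with h | h
  · have h1 : b * (m * (t - M)) ≤ 0 :=
      mul_nonpos_of_nonneg_of_nonpos hb (mul_nonpos_of_nonneg_of_nonpos hm'.le (by linarith))
    exact h1.trans (hb.trans (le_g m hb))
  · unfold g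
    set n := ⌈(m : ℝ) * (t - M)⌉₊ with hn
    have hsub : Finset.range n ⊆ Finset.range ⌈(m : ℝ) * t⌉₊ := by
      intro k hk
      rw [Finset.mem_range] at hk ⊢
      refine lt_of_lt_of_le hk (Nat.ceil_le_ceil ?_)
      exact mul_le_mul_of_nonneg_left (by linarith) hm'.le
    have h1 : ∑ k ∈ Finset.range n, min b (max (t - k / m) 0) ≤
        ∑ k ∈ Finset.range ⌈(m : ℝ) * t⌉₊, min b (max (t - k / m) 0) :=
      Finset.sum_le_sum_of_subset_of_nonneg hsub fun k _ _ => term_nonneg hb _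
    have h2 : ∑ k ∈ Finset.range n, min b (max (t - k / m) 0) = ∑ k ∈ Finset.range n, b := by
      refine Finset.sum_congr rfl fun k hk => ?_
      rw [Finset.mem_range] at hk
      have hk' : (k : ℝ) < m * (t - M) := Nat.lt_ceil.mp hk
      refine min_eq_left (le_max_of_le_left ?_)
      have : (k : ℝ) / m < t - M := by rw [div_lt_iff₀ hm']; linarith
      linarith
    rw [Finset.sum_const, Finset.card_range, nsmul_eq_mul] at h2
    have h3 : (m : ℝ) * (t - M) ≤ n := Nat.le_ceil _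
    have h4 : b * (m * (t - M)) ≤ n * b := by
      rw [mul_comm]; exact mul_le_mul_of_nonneg_right h3 hb
    linarith

theorem continuous_left (m : ℕ) (t : ℝ) : Continuous fun b => g m b t := by
  unfold g
  refine continuous_id.add (continuous_finsetSum _ fun k _ => ?_)
  exact continuous_id.min continuous_const

theorem exists_large (m : ℕ) (hm : 0 < m) {x : Fin m → ℝ} (hx : x ∈ stdSimplex ℝ (Fin m)) :
    ∃ k, 1 / (m : ℝ) ≤ x k := by
  have hm' : (0 : ℝ) < m := by exact_mod_cast hm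
  by_contra hcon
  push Not at hcon
  have : Nonempty (Fin m) := ⟨⟨0, hm⟩⟩
  have h1 : ∑ k, x k < ∑ _k : Fin m, 1 / (m : ℝ) :=
    Finset.sum_lt_sum_of_nonempty Finset.univ_nonempty fun k _ => hcon k
  rw [hx.2, Finset.sum_const, Finset.card_univ, Fintype.card_fin, nsmul_eq_mul,
    mul_one_div_cancel hm'.ne'] at h1
  exact lt_irrefl _ h1

/-- boundary behaviour -/
theorem g_eq_zero_iff (m : ℕ) {b t : ℝ} (hb : 0 ≤ b) : g m b t = 0 ↔ b = 0 := by
  constructor
  · intro h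
    have := le_g m hb (t := t)
    linarith
  · rintro rfl
    exact g_zero_left m t

theorem sum_g_eq_one_iff (m : ℕ) (hm : 0 < m) (x : Fin m → ℝ) (hx : x ∈ stdSimplex ℝ (Fin m))
    {t : ℝ} (ht : 0 ≤ t) : ∑ k, g m (x k) t = 1 ↔ t = 0 := by
  constructor
  · intro h
    by_contra hne
    have htpos : 0 < t := lt_of_le_of_ne ht (Ne.symm hne)
    obtain ⟨k, hk⟩ := exists_large m hm hx
    have h1 : ∑ k, g m (x k) 0 < ∑ k, g m (x k) t :=
      Finset.sum_lt_sum (fun j _ => g_mono_right m hm (hx.1 j) ht)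
        ⟨k, Finset.mem_univ _, g_strict_right m hm hk le_rfl htpos⟩
    simp only [g_zero_right] at h1
    rw [hx.2, h] at h1
    exact lt_irrefl _ h1
  · rintro rfl
    simp only [g_zero_right]
    exact hx.2

/-- the map -/
noncomputable def F (m : ℕ) (p : (stdSimplex ℝ (Fin m)) × (Set.Ici (0 : ℝ))) : Fin m → ℝ :=
  fun k => g m ((p.1 : Fin m → ℝ) k) (p.2 : ℝ)

theorem F_continuous (m : ℕ) (hm : 0 < m) : Continuous (F m) := by
  have hm' : (0 : ℝ) < m := by exact_mod_cast hm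
  refine continuous_pi fun k => ?_
  rw [continuous_iff_continuousAt]
  intro p
  set N := ⌈(m : ℝ) * ((p.2 : ℝ) + 1)⌉₊
  have hev : (fun q : (stdSimplex ℝ (Fin m)) × (Set.Ici (0 : ℝ)) => F m q k) =ᶠ[nhds p]
      fun q => (q.1 : Fin m → ℝ) k + ∑ j ∈ Finset.range N,
        min ((q.1 : Fin m → ℝ) k) (max ((q.2 : ℝ) - j / m) 0) := by
    have hopen : IsOpen {q : (stdSimplex ℝ (Fin m)) × (Set.Ici (0 : ℝ)) |
        (q.2 : ℝ) < (p.2 : ℝ) + 1} :=
      isOpen_lt (continuous_subtype_val.comp continuous_snd) continuous_const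
    filter_upwards [hopen.mem_nhds (by simp : p ∈ _)] with q hq
    refine g_eq m hm (q.1.2.1 k) ?_
    exact (mul_le_mul_of_nonneg_left (le_of_lt hq) hm'.le).trans (Nat.le_ceil _)
  refine ContinuousAt.congr ?_ hev.symm
  refine Continuous.continuousAt ?_
  have c1 : Continuous fun q : (stdSimplex ℝ (Fin m)) × (Set.Ici (0 : ℝ)) =>
      (q.1 : Fin m → ℝ) k := (continuous_apply k).comp (continuous_subtype_val.comp continuous_fst)
  have c2 : Continuous fun q : (stdSimplex ℝ (Fin m)) × (Set.Ici (0 : ℝ)) => (q.2 : ℝ) :=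
    continuous_subtype_val.comp continuous_snd
  exact c1.add (continuous_finsetSum _ fun j _ => c1.min ((c2.sub continuous_const).max
    continuous_const))

theorem F_inj_aux (m : ℕ) (hm : 0 < m) {x x' : Fin m → ℝ} (hx : x ∈ stdSimplex ℝ (Fin m))
    (hx' : x' ∈ stdSimplex ℝ (Fin m)) {t t' : ℝ} (ht : 0 ≤ t) (h : t ≤ t')
    (he : ∀ k, g m (x k) t = g m (x' k) t') : x = x' ∧ t = t' := by
  have h1 : ∀ k, x' k ≤ x k := by
    intro k
    by_contra hcon
    push Not at hcon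
    have h2 := sub_le_g_sub m hcon.le t
    have h3 := g_mono_right m hm (hx'.1 k) h
    rw [← he k] at h3
    linarith
  have h2 : ∀ k, x' k = x k := by
    have := (Finset.sum_eq_sum_iff_of_le (s := Finset.univ) (fun k _ => h1 k)).mp
      (by rw [hx.2, hx'.2])
    exact fun k => this k (Finset.mem_univ k)
  have h3 : x = x' := funext fun k => (h2 k).symm
  refine ⟨h3, ?_⟩
  by_contra hne
  obtain ⟨k, hk⟩ := exists_large m hm hx
  have := g_strict_right m hm hk ht (lt_of_le_of_ne h hne)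
  rw [he k, h3] at this
  exact lt_irrefl _ this

theorem F_injective (m : ℕ) (hm : 0 < m) : Function.Injective (F m) := by
  rintro ⟨x, t⟩ ⟨x', t'⟩ h
  have he : ∀ k, g m ((x : Fin m → ℝ) k) t = g m ((x' : Fin m → ℝ) k) t' := fun k => congrFun h k
  rcases le_total (t : ℝ) t' with h1 | h1
  · obtain ⟨h2, h3⟩ := F_inj_aux m hm x.2 x'.2 t.2 h1 he
    exact Prod.ext (Subtype.ext h2) (Subtype.ext h3)
  · obtain ⟨h2, h3⟩ := F_inj_aux m hm x'.2 x.2 t'.2 h1 fun k => (he k).symm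
    exact Prod.ext (Subtype.ext h2.symm) (Subtype.ext h3.symm)

theorem exists_inv (m : ℕ) {X : ℝ} (hX : 0 ≤ X) (t : ℝ) :
    ∃ b, 0 ≤ b ∧ b ≤ X ∧ g m b t = X := by
  have h := intermediate_value_Icc hX (continuous_left m t).continuousOn
  have hX' : X ∈ Set.Icc (g m 0 t) (g m X t) := ⟨by rw [g_zero_left]; exact hX, le_g m hX⟩
  obtain ⟨b, hb, he⟩ := h hX'
  exact ⟨b, hb.1, hb.2, he⟩

theorem inv_lip (m : ℕ) (hm : 0 < m) {X b b' t t' T : ℝ} (hb : 0 ≤ b) (hb' : 0 ≤ b')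
    (h : g m b t = X) (h' : g m b' t' = X) (ht : t ≤ T) (ht' : t' ≤ T) :
    |b - b'| ≤ ⌈(m : ℝ) * T⌉₊ * |t - t'| := by
  have hm' : (0 : ℝ) < m := by exact_mod_cast hm
  have hN : ∀ s ≤ T, (m : ℝ) * s ≤ ⌈(m : ℝ) * T⌉₊ := fun s hs =>
    (mul_le_mul_of_nonneg_left hs hm'.le).trans (Nat.le_ceil _)
  have key : ∀ c, 0 ≤ c → |g m c t - g m c t'| ≤ ⌈(m : ℝ) * T⌉₊ * |t - t'| := by
    intro c hc
    rcases le_total t t' with h1 | h1
    · rw [abs_sub_comm, abs_of_nonneg (sub_nonneg.mpr (g_mono_right m hm hc h1)), abs_sub_comm,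
        abs_of_nonneg (sub_nonneg.mpr h1)]
      exact g_lip m hm hc h1 (hN _ ht')
    · rw [abs_of_nonneg (sub_nonneg.mpr (g_mono_right m hm hc h1)),
        abs_of_nonneg (sub_nonneg.mpr h1)]
      exact g_lip m hm hc h1 (hN _ ht)
  rcases le_total b' b with h1 | h1
  · have h2 := sub_le_g_sub m h1 t'
    have h3 := key b hb
    rw [h] at h3
    rw [h'] at h2
    rw [abs_of_nonneg (sub_nonneg.mpr h1)]
    have := neg_abs_le (X - g m b t')
    linarith
  · have h2 := sub_le_g_sub m h1 t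
    have h3 := key b' hb'
    rw [h'] at h3
    rw [h] at h2
    rw [abs_sub_comm, abs_of_nonneg (sub_nonneg.mpr h1)]
    have := le_abs_self (g m b' t - X)
    linarith

theorem F_range (m : ℕ) (hm : 0 < m) :
    Set.range (F m) = {X : Fin m → ℝ | (∀ k, 0 ≤ X k) ∧ 1 ≤ ∑ k, X k} := by
  have hm' : (0 : ℝ) < m := by exact_mod_cast hm
  have hm1 : (1 : ℝ) ≤ m := by exact_mod_cast hm
  apply Set.Subset.antisymm
  · rintro _ ⟨⟨x, t⟩, rfl⟩
    refine ⟨fun k => (x.2.1 k).trans (le_g m (x.2.1 k)), ?_⟩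
    rw [← x.2.2]
    exact Finset.sum_le_sum fun k _ => le_g m (x.2.1 k)
  · rintro X ⟨hX, hsum⟩
    set M := ∑ k, X k with hM
    have hex : ∀ (k : Fin m) (t : ℝ), ∃ b, 0 ≤ b ∧ b ≤ X k ∧ g m b t = X k :=
      fun k t => exists_inv m (hX k) t
    choose β hβ0 hβX hβ using hex
    have hcont : ContinuousOn (fun t => ∑ k, β k t) (Set.Icc 0 (2 * M)) := by
      refine continuousOn_finsetSum _ fun k _ => ?_
      have hl : LipschitzOnWith (⌈(m : ℝ) * (2 * M)⌉₊ : NNReal) (β k) (Set.Icc 0 (2 * M)) := by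
        refine LipschitzOnWith.of_dist_le_mul fun s hs t ht => ?_
        rw [Real.dist_eq, Real.dist_eq]
        have := inv_lip m hm (hβ0 k s) (hβ0 k t) (hβ k s) (hβ k t) hs.2 ht.2
        simpa using this
      exact hl.continuousOn
    have hXM : ∀ k, X k ≤ M := fun k =>
      Finset.single_le_sum (f := X) (fun j _ => hX j) (Finset.mem_univ k)
    have hM0 : 0 < M := lt_of_lt_of_le one_pos hsum
    have hend : ∑ k, β k (2 * M) ≤ 1 := by
      have h1 : ∀ k, β k (2 * M) * M ≤ X k := by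
        intro k
        have h2 := g_lower m (hβ0 k (2 * M)) ((hβX k (2 * M)).trans (hXM k)) hm (t := 2 * M)
        rw [hβ k (2 * M)] at h2
        refine le_trans ?_ h2
        refine mul_le_mul_of_nonneg_left ?_ (hβ0 _ _)
        nlinarith
      have h2 : (∑ k, β k (2 * M)) * M ≤ M := by
        rw [Finset.sum_mul]
        exact (Finset.sum_le_sum fun k _ => h1 k)
      by_contra hcon
      push Not at hcon
      nlinarith
    have hstart : 1 ≤ ∑ k, β k 0 := by
      have : ∀ k, β k 0 = X k := by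
        intro k
        have := hβ k 0
        rwa [g_zero_right] at this
      simp only [this]
      exact hsum
    have hle : (0 : ℝ) ≤ 2 * M := by linarith
    obtain ⟨t, ht, he⟩ := intermediate_value_Icc' hle hcont ⟨hend, hstart⟩
    refine ⟨(⟨fun k => β k t, fun k => hβ0 k t, he⟩, ⟨t, ht.1⟩), ?_⟩
    funext k
    exact hβ k t

theorem F_proper (m : ℕ) (hm : 0 < m) : IsProperMap (F m) := by
  have hm' : (0 : ℝ) < m := by exact_mod_cast hm
  rw [isProperMap_iff_isCompact_preimage]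
  refine ⟨F_continuous m hm, fun K hK => ?_⟩
  obtain ⟨R, hR⟩ := hK.isBounded.subset_closedBall (0 : Fin m → ℝ)
  have hcomp : IsCompact ((Set.univ : Set (stdSimplex ℝ (Fin m))) ×ˢ
      {t : Set.Ici (0 : ℝ) | (t : ℝ) ≤ R + 1}) := by
    refine IsCompact.prod isCompact_univ ?_
    rw [Subtype.isCompact_iff]
    have : (Subtype.val '' {t : Set.Ici (0 : ℝ) | (t : ℝ) ≤ R + 1}) = Set.Icc 0 (R + 1) := by
      ext s
      constructor
      · rintro ⟨s, hs, rfl⟩
        exact ⟨s.2, hs⟩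
      · intro hs
        exact ⟨⟨s, hs.1⟩, hs.2, rfl⟩
    rw [this]
    exact isCompact_Icc
  refine hcomp.of_isClosed_subset (hK.isClosed.preimage (F_continuous m hm)) ?_
  rintro ⟨x, t⟩ hp
  refine ⟨Set.mem_univ _, ?_⟩
  obtain ⟨k, hk⟩ := exists_large m hm x.2
  have h1 : F m (x, t) k ≤ R := by
    have h2 := hR hp
    rw [Metric.mem_closedBall, dist_zero_right] at h2
    have h3 : ‖F m (x, t) k‖ ≤ R := (norm_le_pi_norm _ k).trans h2
    exact (le_abs_self _).trans h3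
  have hx1 : (x : Fin m → ℝ) k ≤ 1 := by
    rw [← x.2.2]
    exact Finset.single_le_sum (f := (x : Fin m → ℝ)) (fun j _ => x.2.1 j) (Finset.mem_univ k)
  have h4 : (x : Fin m → ℝ) k * (m * ((t : ℝ) - 1)) ≤ g m ((x : Fin m → ℝ) k) t :=
    g_lower m (x.2.1 k) hx1 hm (t := (t : ℝ))
  change (t : ℝ) ≤ R + 1
  by_contra hcon
  push Not at hcon
  have hR0 : 0 ≤ R := by
    have : 0 ≤ F m (x, t) k := (x.2.1 k).trans (le_g m (x.2.1 k))
    linarith
  have h5 : (t : ℝ) - 1 ≤ (x : Fin m → ℝ) k * (m * ((t : ℝ) - 1)) := by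
    have h6 : 1 ≤ (x : Fin m → ℝ) k * m := by
      rw [div_le_iff₀ hm'] at hk
      exact hk
    have h7 : 0 ≤ (t : ℝ) - 1 := by linarith
    nlinarith
  have h8 : g m ((x : Fin m → ℝ) k) t ≤ R := h1
  linarith

/-- The map `(x, t) ↦ (g(x_k, t))_k` is a homeomorphism from `Δ^{m-1} × [0,∞)` onto
`{X ≥ 0, ∑ X ≥ 1}`. -/
theorem exists_homeo (m : ℕ) (hm : 0 < m) :
    ∃ e : (stdSimplex ℝ (Fin m)) × (Set.Ici (0 : ℝ)) ≃ₜ
        {X : Fin m → ℝ | (∀ k, 0 ≤ X k) ∧ 1 ≤ ∑ k, X k},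
      ∀ p k, (e p : Fin m → ℝ) k = g m ((p.1 : Fin m → ℝ) k) (p.2 : ℝ) := by
  have hemb : Topology.IsClosedEmbedding (F m) :=
    Topology.IsClosedEmbedding.of_continuous_injective_isClosedMap (F_continuous m hm)
      (F_injective m hm) (F_proper m hm).isClosedMap
  refine ⟨hemb.isEmbedding.toHomeomorph.trans (Homeomorph.setCongr (F_range m hm)), ?_⟩
  intro p k
  rfl

end Pool.Agent.JobModel
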